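import Pool.Agent.N119.PS.Stm2

/-!
# Project PSC2, leaf MEM: finite memory of displacements
-/

set_option autoImplicit false

namespace Pool.Agent.N953.PSC.MEM

open Pool.Agent.H472R3 Pool.Agent.H67R3.FSR Pool.Agent.N119.PS

/-- Finite memory of displacements. -/
theorem t : Pool.Agent.N119.PS.S_MEM := by
  intro N A hA x C hC
  obtain ⟨hC0, hbcc⟩ := hC
  have hfin : {g : FreeGroup (Fin N) | dist x (g • x) ≤ 2 * C}.Finite := proper A hA x (2 * C)
  obtain ⟨M, hM⟩ := (hfin.image (fun g : FreeGroup (Fin N) => g.norm)).bddAbove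
  have hlow : ∀ v : FreeGroup (Fin N), M + 1 ≤ v.norm → 2 * C < (lenFn A x).L v := by
    intro v hv
    by_contra hcon
    have h1 : dist x (v • x) ≤ 2 * C := by
      rw [← lenFn_L]
      exact not_lt.mp hcon
    have h2 : v.norm ≤ M := hM ⟨v, h1, rfl⟩
    omega
  refine ⟨M + 1, by omega, hlow, ?_⟩
  intro t v w hv hred
  have hv' := hlow v hv
  have hred2 : FreeGroup.IsReduced (t.toWord ++ v.toWord) := (List.isChain_append.1 hred).1
  have hred1 : FreeGroup.IsReduced (v.toWord ++ w.toWord) := by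
    rw [List.append_assoc] at hred
    exact (List.isChain_append.1 hred).2.1
  have h1 := hbcc v w hred1
  have h2 := hbcc t v hred2
  obtain ⟨ℓ, hℓ⟩ : ∃ ℓ, ℓ = lenFn A x := ⟨_, rfl⟩
  rw [← hℓ] at h1 h2 hv' ⊢
  have h3 : G ℓ v (v * w) = (ℓ.L v + ℓ.L (v * w) - ℓ.L w) / 2 := by
    unfold G
    rw [inv_mul_cancel_left]
  have h4 : ℓ.L (t * v) = ℓ.L t + ℓ.L v - 2 * G ℓ t⁻¹ v := L_mul ℓ t v
  have h5 : ℓ.L (t * (v * w)) = ℓ.L t + ℓ.L (v * w) - 2 * G ℓ t⁻¹ (v * w) := L_mul ℓ t (v * w)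
  have h6 : G ℓ t⁻¹ (v * w) = G ℓ t⁻¹ v := by
    apply G_iso
    rw [h3]
    linarith
  rw [mul_assoc, h5, h6, h4]
  ring

end Pool.Agent.N953.PSC.MEM
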